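import Mathlib

namespace Pool.Agent.Results.MP_19ad23_co.NonNested

/-- Edges `xy`, `uv` (written with `x < y`, `u < v`) cross. -/
def Cross {n : ℕ} (e f : Fin n × Fin n) : Prop :=
  (e.1 < f.1 ∧ f.1 < e.2 ∧ e.2 < f.2) ∨ (f.1 < e.1 ∧ e.1 < f.2 ∧ f.2 < e.2)

/-- The intervals of the two edges are disjoint. -/
def Sep {n : ℕ} (e f : Fin n × Fin n) : Prop := e.2 < f.1 ∨ f.2 < e.1

/-- `M` lists `k` pairwise vertex-disjoint edges of `G`, smaller endpoint first. -/
def IsMatching {n k : ℕ} (G : SimpleGraph (Fin n)) (M : Fin k → Fin n × Fin n) : Prop :=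
  (∀ i, (M i).1 < (M i).2 ∧ G.Adj (M i).1 (M i).2) ∧
    ∀ i j, i ≠ j → (M i).1 ≠ (M j).1 ∧ (M i).1 ≠ (M j).2 ∧ (M i).2 ≠ (M j).2

def IsNonNested {n k : ℕ} (M : Fin k → Fin n × Fin n) : Prop :=
  ∀ i j, i ≠ j → Cross (M i) (M j) ∨ Sep (M i) (M j)

def StronglyNonNested {n k : ℕ} (M : Fin k → Fin n × Fin n) : Prop :=
  ∃ c : Fin k → ℕ, ∀ i j, i ≠ j →
    (c i = c j → Cross (M i) (M j)) ∧ (c i ≠ c j → Sep (M i) (M j))

noncomputable def exNN (n k : ℕ) : ℕ :=
  sSup {m | ∃ G : SimpleGraph (Fin n), G.edgeSet.ncard = m ∧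
    ¬ ∃ M : Fin k → Fin n × Fin n, IsMatching G M ∧ IsNonNested M}

noncomputable def exSNN (n k : ℕ) : ℕ :=
  sSup {m | ∃ G : SimpleGraph (Fin n), G.edgeSet.ncard = m ∧
    ¬ ∃ M : Fin k → Fin n × Fin n, IsMatching G M ∧ StronglyNonNested M}

def L : List (Fin 9 × Fin 9) :=
  [(0, 1), (0, 2), (0, 3), (0, 4), (0, 5), (0, 6), (0, 7), (0, 8), (1, 2), (1, 3), (1, 4), (1, 5),
   (1, 6), (1, 7), (1, 8), (2, 3), (2, 4), (2, 5), (2, 8), (3, 4), (3, 5), (3, 6), (3, 7), (3, 8),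
   (4, 5), (5, 6), (5, 7), (5, 8)]

def G9 : SimpleGraph (Fin 9) := SimpleGraph.fromRel fun a b => (a, b) ∈ L

instance : DecidableRel G9.Adj := fun a b =>
  decidable_of_iff _ (SimpleGraph.fromRel_adj _ a b).symm

instance {n : ℕ} (e f : Fin n × Fin n) : Decidable (Cross e f) := by unfold Cross; infer_instance
instance {n : ℕ} (e f : Fin n × Fin n) : Decidable (Sep e f) := by unfold Sep; infer_instance

def Tr (a b c : Fin 9 × Fin 9) : Prop :=
  (Cross a b → Cross b c → Cross a c) ∧ (Cross a b → Cross a c → Cross b c) ∧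
    (Cross a c → Cross b c → Cross a b)

instance (a b c : Fin 9 × Fin 9) : Decidable (Tr a b c) := by unfold Tr; infer_instance

def Ok {n : ℕ} (a b : Fin n × Fin n) : Prop := Cross a b ∨ Sep a b

instance {n : ℕ} (a b : Fin n × Fin n) : Decidable (Ok a b) := by unfold Ok; infer_instance

lemma key0 : (L.all fun a => L.all fun b => !decide (Ok a b) || L.all fun c =>
    !decide (Ok a c) || !decide (Ok b c) || !decide (Tr a b c) || L.all fun d =>
    !decide (Ok a d) || !decide (Ok b d) || !decide (Ok c d) || !decide (Tr a b d) ||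
    !decide (Tr a c d) || !decide (Tr b c d)) = true := by
  decide +kernel

lemma key : ∀ a ∈ L, ∀ b ∈ L, Ok a b → ∀ c ∈ L, Ok a c →
    Ok b c → Tr a b c → ∀ d ∈ L, Ok a d → Ok b d →
    Ok c d → Tr a b d → Tr a c d → ¬ Tr b c d := by
  intro a ha b hb h1 c hc h2 h3 h4 d hd h5 h6 h7 h8 h9 h10
  have k := List.all_eq_true.1 (List.all_eq_true.1 key0 a ha) b hb
  simp only [h1, decide_true, Bool.not_true, Bool.false_or] at k
  have k := List.all_eq_true.1 k c hc
  simp only [h2, h3, h4, decide_true, Bool.not_true, Bool.false_or] at k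
  have k := List.all_eq_true.1 k d hd
  simp [h5, h6, h7, h8, h9, h10] at k

def L2 : List (Fin 11 × Fin 11) :=
  [(0, 4), (0, 5), (0, 6), (0, 7), (0, 8), (0, 9), (0, 10), (1, 2), (1, 3), (1, 4), (1, 5), (1, 6), (1, 7), (1, 8), (1, 9), (1, 10), (2, 3), (2, 4), (2, 5), (2, 6), (2, 9), (2, 10), (3, 4), (3, 5), (3, 6), (3, 9), (3, 10), (4, 5), (4, 6), (4, 7), (4, 8), (4, 9), (4, 10), (5, 6), (5, 7), (5, 8), (5, 9), (5, 10), (6, 7), (6, 8), (6, 9), (6, 10), (7, 8), (7, 9), (8, 9)]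

def G11 : SimpleGraph (Fin 11) := SimpleGraph.fromRel fun a b => (a, b) ∈ L2

instance : DecidableRel G11.Adj := fun a b =>
  decidable_of_iff _ (SimpleGraph.fromRel_adj _ a b).symm

lemma key2 : (L2.all fun a => L2.all fun b => !decide (Ok a b) || L2.all fun c =>
    !decide (Ok a c) || !decide (Ok b c) || L2.all fun d =>
    !decide (Ok a d) || !decide (Ok b d) || !decide (Ok c d) || L2.all fun e =>
    !decide (Ok a e) || !decide (Ok b e) || !decide (Ok c e) || !decide (Ok d e)) = true := by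
  decide +kernel

lemma mem_L2 : ∀ a b : Fin 11, a < b → G11.Adj a b → (a, b) ∈ L2 := by decide +kernel

lemma card_G11 : G11.edgeSet.ncard = 45 := by
  rw [← SimpleGraph.coe_edgeFinset, Set.ncard_coe_finset]
  decide +kernel

lemma free2 : ¬ ∃ M : Fin 5 → Fin 11 × Fin 11, IsMatching G11 M ∧ IsNonNested M := by
  rintro ⟨M, ⟨h1, _⟩, hc⟩
  have hm : ∀ i, M i ∈ L2 := fun i => mem_L2 _ _ (h1 i).1 (h1 i).2
  have ho : ∀ i j, i ≠ j → decide (Ok (M i) (M j)) = true := fun i j hij =>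
    decide_eq_true (hc i j hij)
  have k := List.all_eq_true.1 (List.all_eq_true.1 key2 _ (hm 0)) _ (hm 1)
  rw [ho 0 1 (by decide), Bool.not_true, Bool.false_or] at k
  have k := List.all_eq_true.1 k _ (hm 2)
  rw [ho 0 2 (by decide), ho 1 2 (by decide)] at k
  simp only [Bool.not_true, Bool.false_or] at k
  have k := List.all_eq_true.1 k _ (hm 3)
  rw [ho 0 3 (by decide), ho 1 3 (by decide), ho 2 3 (by decide)] at k
  simp only [Bool.not_true, Bool.false_or] at k
  have k := List.all_eq_true.1 k _ (hm 4)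
  rw [ho 0 4 (by decide), ho 1 4 (by decide), ho 2 4 (by decide), ho 3 4 (by decide)] at k
  simp at k

lemma mem_L : ∀ a b : Fin 9, a < b → G9.Adj a b → (a, b) ∈ L := by decide +kernel

lemma card_G9 : G9.edgeSet.ncard = 28 := by
  rw [← SimpleGraph.coe_edgeFinset, Set.ncard_coe_finset]
  decide +kernel

lemma free : ¬ ∃ M : Fin 4 → Fin 9 × Fin 9, IsMatching G9 M ∧ StronglyNonNested M := by
  rintro ⟨M, ⟨h1, _⟩, c, hc⟩
  have hm : ∀ i, M i ∈ L := fun i => mem_L _ _ (h1 i).1 (h1 i).2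
  have ho : ∀ i j, i ≠ j → Cross (M i) (M j) ∨ Sep (M i) (M j) := fun i j hij => by
    by_cases h : c i = c j
    · exact Or.inl ((hc i j hij).1 h)
    · exact Or.inr ((hc i j hij).2 h)
  have he : ∀ i j, i ≠ j → Cross (M i) (M j) → c i = c j := fun i j hij hx => by
    by_contra h
    have h2 := (hc i j hij).2 h
    unfold Cross at hx; unfold Sep at h2
    omega
  have ht : ∀ i j l, i ≠ j → i ≠ l → j ≠ l → Tr (M i) (M j) (M l) := fun i j l a b d =>
    ⟨fun x y => (hc i l b).1 ((he i j a x).trans (he j l d y)),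
     fun x y => (hc j l d).1 ((he i j a x).symm.trans (he i l b y)),
     fun x y => (hc i j a).1 ((he i l b x).trans (he j l d y).symm)⟩
  exact key _ (hm 0) _ (hm 1) (ho _ _ (by decide)) _ (hm 2) (ho _ _ (by decide))
    (ho _ _ (by decide)) (ht _ _ _ (by decide) (by decide) (by decide)) _ (hm 3)
    (ho _ _ (by decide)) (ho _ _ (by decide)) (ho _ _ (by decide))
    (ht _ _ _ (by decide) (by decide) (by decide)) (ht _ _ _ (by decide) (by decide) (by decide))
    (ht _ _ _ (by decide) (by decide) (by decide))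

theorem result : 28 ≤ exSNN 9 4 ∧ 45 ≤ exNN 11 5 ∧ ¬ ∀ n k : ℕ, 0 < n → 0 < k → 2 * k ≤ n →
    exNN n k = (k - 1) * n ∧ exSNN n k = (k - 1) * n := by
  have h : 28 ≤ exSNN 9 4 := by
    refine le_csSup ⟨Nat.card (Sym2 (Fin 9)), ?_⟩ ⟨G9, card_G9, free⟩
    rintro m ⟨G, rfl, _⟩
    exact Set.ncard_le_card _
  have h' : 45 ≤ exNN 11 5 := by
    refine le_csSup ⟨Nat.card (Sym2 (Fin 11)), ?_⟩ ⟨G11, card_G11, free2⟩
    rintro m ⟨G, rfl, _⟩
    exact Set.ncard_le_card _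
  refine ⟨h, h', fun h2 => ?_⟩
  have := (h2 9 4 (by omega) (by omega) (by omega)).2
  omega

end Pool.Agent.Results.MP_19ad23_co.NonNested
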